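import Pool.Agent.Q54.FM.NearFree
import Pool.Agent.H932R3.Finals

set_option autoImplicit false

/-!
# Unequal multiplicities: near-uniform vectors with sums in polynomial and prime sequences

Systems of plane curves with general points of multiplicities `m` and `m + 1`. For a vector `w` with `n` entries
`m` or `m + 1`, `m ≥ 1`, of sum `W` the system is known (starting files) to have the expected dimension in all degrees
except possibly for `d` in one window of length less than one around `W / √n + √n / 2 - 3 / 2`. Here it is shown that for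
the sums `W` in polynomial sequences and along primes these windows contain no integer for the expected proportion of the
`W`, and this simultaneously for any finite set of numbers `n` of points (nonsquares in different square classes):

* the values `f(k)`, `k < M`, of ANY polynomial `f` with integer coefficients of degree between `1` and `K` whose leading
  coefficient is at most `M ^ κ` (all intervals of length `M` wherever they are, arithmetic progressions with differences
  `≤ M ^ κ`, squares, powers, ...),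
* the numbers `b p + h`, `p ≤ M` prime, `p ≡ a mod q` with `|b|, q ≤ M ^ κ`.

The proof uses joint uniform distribution of the vectors `(W / √n)`, `n ∈ T`, with a power saving
(`Pool.Agent.Q54.FM`: bounds for exponential sums of the library of the team and a lower bound for integer linear forms in
square roots).
-/

namespace Pool.Agent.Results.MP_6e81d8_ag.NearUniformSequences

open MvPolynomial

/-- The forms of degree `d` vanishing to order at least `w i` at the points `(P i 0 : P i 1 : 1)`. -/
noncomputable def forms {n : ℕ} (P : Fin n → Fin 2 → ℂ) (d : ℕ) (w : Fin n → ℕ) :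
    Submodule ℂ (MvPolynomial (Fin 3) ℂ) :=
  homogeneousSubmodule (Fin 3) ℂ d ⊓
    Submodule.restrictScalars ℂ
      (⨅ i : Fin n, (Ideal.span {X 0 - C (P i 0) * X 2, X 1 - C (P i 1) * X 2} :
        Ideal (MvPolynomial (Fin 3) ℂ)) ^ (w i))

/-- The (projective) dimension of the linear system of the curves of degree `d` with multiplicities at least `w i` at
`P i`. -/
noncomputable def dim {n : ℕ} (P : Fin n → Fin 2 → ℂ) (d : ℕ) (w : Fin n → ℕ) : ℤ :=
  (Module.finrank ℂ ↥(forms P d w) : ℤ) - 1

/-- The virtual dimension. -/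
def vdim {n : ℕ} (d : ℕ) (w : Fin n → ℕ) : ℤ :=
  ((d + 2).choose 2 : ℤ) - 1 - ∑ i, ((w i + 1).choose 2 : ℤ)

/-- The expected dimension. -/
def edim {n : ℕ} (d : ℕ) (w : Fin n → ℕ) : ℤ := max (vdim d w) (-1)

/-- For general points (one nonempty open set for all degrees) the linear systems with the multiplicities `w` have the
expected dimension in EVERY degree. -/
def EveryDegree {n : ℕ} (w : Fin n → ℕ) : Prop :=
  ∃ F : MvPolynomial (Fin n × Fin 2) ℂ, F ≠ 0 ∧ ∀ P : Fin n → Fin 2 → ℂ,
    MvPolynomial.eval (fun ij : Fin n × Fin 2 => P ij.1 ij.2) F ≠ 0 → ∀ d : ℕ, dim P d w = edim d w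

/-- All the vectors `w` with `n` entries `m` or `m + 1` (for some `m ≥ 1`) and sum `W` have the expected dimension in every
degree. -/
def Good (n W : ℕ) : Prop :=
  ∀ m : ℕ, 1 ≤ m → ∀ w : Fin n → ℕ, (∀ i, w i = m ∨ w i = m + 1) → ∑ i, w i = W → EveryDegree w

/-- The sum of the half lengths of the window below and of the window above. -/
noncomputable def bad (n : ℕ) : ℝ :=
  (min (√(n : ℝ) - 3) (2 / 3 + 9 / (4 * √(n : ℝ))) + min (√(n : ℝ) - 3) (2 / 3 + 1 / (4 * √(n : ℝ)))) / 2

/-- The numbers of points for which all near-uniform vectors are known to be good. -/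
def Free (N0 n : ℕ) : Prop :=
  N0 ≤ n ∨ (144 ≤ n ∧ 4 ∣ n) ∨ ∃ j, n = 4 ^ (j + 2) ∨ n = 9 * 4 ^ (j + 1) ∨ n = 13 * 4 ^ j

/-- `SparseExceptions κ K M η P`: the property `P` fails rarely in polynomial sequences and along primes.
1. For every polynomial `f` with integer coefficients of degree between `1` and `K`, the leading coefficient being at most
   `M ^ κ` in absolute value (the other coefficients are arbitrary), `P (f k)` fails for at most
   `η M + M ^ (1 - κ)` of the natural numbers `k < M` with `f k > 0`.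
2. For all integers `b ≠ 0` and `h` and natural numbers `q ≥ 1` and `a`, `|b|, q ≤ M ^ κ`, `P (b p + h)` fails for at most
   `η N + M ^ (1 - κ)` of the `N` primes `p ≤ M` with `p ≡ a mod q` (only those with `b p + h > 0` are counted). -/
def SparseExceptions (κ : ℝ) (K M : ℕ) (η : ℝ) (P : ℕ → Prop) : Prop :=
  (∀ f : Polynomial ℤ, 1 ≤ f.natDegree → f.natDegree ≤ K → |(f.leadingCoeff : ℝ)| ≤ (M : ℝ) ^ κ →
    ({k : ℕ | k < M ∧ 0 < f.eval (k : ℤ) ∧ ¬ P (f.eval (k : ℤ)).toNat}.ncard : ℝ) ≤
      η * M + (M : ℝ) ^ (1 - κ)) ∧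
  (∀ b h : ℤ, b ≠ 0 → |(b : ℝ)| ≤ (M : ℝ) ^ κ → ∀ q a : ℕ, 1 ≤ q → (q : ℝ) ≤ (M : ℝ) ^ κ →
    ({p : ℕ | p ≤ M ∧ p.Prime ∧ p ≡ a [MOD q] ∧ 0 < b * p + h ∧ ¬ P (b * p + h).toNat}.ncard : ℝ) ≤
      η * ({p : ℕ | p ≤ M ∧ p.Prime ∧ p ≡ a [MOD q]}.ncard : ℝ) + (M : ℝ) ^ (1 - κ))

lemma good_of (n W : ℕ) (h : Pool.Agent.Q54.FM.GN n W) : Good n W := by
  intro m hm w hw hs
  obtain ⟨F, hF, hF'⟩ := h m hm w hw hs
  refine ⟨F.map (algebraMap ℚ ℂ), H932R3.map_ne_zero_of hF, fun P hP d => ?_⟩
  rw [MvPolynomial.eval_map] at hP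
  have h2 := hF' P hP d
  unfold H932R3.ExpDim at h2
  have h3 : ∑ i, ((w i + 1).choose 2 : ℤ) = ((∑ i, Nat.choose (w i + 1) 2 : ℕ) : ℤ) := by
    push_cast
    rfl
  unfold dim edim vdim forms
  rw [h3, h2]
  omega

/-- There is `N0` such that for every nonempty finite set `T` of nonsquares `n ≥ 10`, no product of two different members
of which is a square: the product `c` of the numbers `1 - bad n`, `n ∈ T`, is positive, and for every `K` there are
`0 < κ ≤ 1` and `M₀` such that for all `M ≥ M₀`, up to `M ^ (1 - κ)`, the sums `W` which are good for all `n ∈ T` and all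
free `n` have at least the proportion `c` in all the sequences of `SparseExceptions`. -/
theorem result : ∃ N0 : ℕ, ∀ T : Finset ℕ, T.Nonempty → (∀ n ∈ T, 10 ≤ n ∧ ¬ IsSquare n) →
    (∀ n ∈ T, ∀ n' ∈ T, n ≠ n' → ¬ IsSquare (n * n')) →
    0 < ∏ n ∈ T, (1 - bad n) ∧
    ∀ K : ℕ, ∃ κ : ℝ, 0 < κ ∧ κ ≤ 1 ∧ ∃ M₀ : ℕ, ∀ M : ℕ, M₀ ≤ M →
      SparseExceptions κ K M (1 - ∏ n ∈ T, (1 - bad n)) (fun W => ∀ n, n ∈ T ∨ Free N0 n → Good n W) := by
  obtain ⟨N0, h⟩ := Pool.Agent.Q54.FM.near_all Good good_of
  refine ⟨N0, fun T hT h10 hpair => ?_⟩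
  obtain ⟨h1, h2⟩ := h T hT h10 hpair
  refine ⟨h1, fun K => ?_⟩
  obtain ⟨κ, hκ, hκ1, M₀, -, h'⟩ := h2 K
  exact ⟨κ, hκ, hκ1, M₀, h'⟩

end Pool.Agent.Results.MP_6e81d8_ag.NearUniformSequences
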