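import Pool.Agent.Q54.SC.Base

set_option autoImplicit false

/-!
# Expected dimension for the subdivision closure of the standard range

`System d v` (`Pool.Agent.Q78.SG.Sub.System`; degree `d`, multiset `v` of multiplicities) is the
smallest relation which contains

* the standard systems at `≥ 4` points with at most nine multiplicities larger than `2`;
* the standard systems at `≥ 4` points such that, for some `m ≥ 1` and
  `B = 2 ^ 17 (4 m ^ 2 + 8 m + 5) ^ 4`, at most five multiplicities are larger than `m` or those
  larger than `m` have a sum `≤ 2 d - (4 m ^ 2 + 8 m + 5)`, and `d ≥ B` or at least `B + 3`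
  multiplicities are not zero;
* the systems of degree `3 D` with `k` multiplicities `D` and `r` blocks of `M + 4` multiplicities,
  in each block one or two consecutive numbers, `k + r M = 9`, if all blocks have
  `≤ M (D + 1).choose 2` conditions, or all have more;

and is closed under the subdivision of one multiplicity `b` into the integral parts of
`(2 b - 1) / 4, 2 b / 4, (2 b + 1) / 4, (2 b + 2) / 4`, under that of `N` multiplicities into
`b / 2, b / 2, (b + 1) / 2, (b + 1) / 2` each if the systems with `N` multiplicities `b` and with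
`N` multiplicities `b + 1` are in it, and under the passage to a larger (smaller) degree if the
number of conditions is at most (at least) the number of forms.

1. For every vector `w` there is one nonempty open set of points such that `dim = edim` in ALL degrees
   `d` for which `(d; w)` is in the closure.
2. If `(d; w)` and `(d + 1; w)` are in the closure, where `d` is the critical degree (the number of
   conditions is between the numbers of forms of degree `d` and `d + 1`), then `(e; w)` is in it for
   all `e`.
3. The closure contains the systems with at most nine groups of `4 ^ k` equal multiplicities `x`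
   (`k` and `x` depend on the group) and arbitrarily many multiplicities `1` and `2`, in all degrees
   which are not smaller than the sum of any three of the numbers `2 ^ k (x + 1) - 1`.
-/

namespace Pool.Agent.Results.MP_6e81d8_ag.SubdivisionClosure

open MvPolynomial Pool.Agent.Q78.SG.Sub

/-- The forms of degree `d` vanishing to order at least `w i` at the points `(P i 0 : P i 1 : 1)`. -/
noncomputable def forms {n : ℕ} (P : Fin n → Fin 2 → ℂ) (d : ℕ) (w : Fin n → ℕ) :
    Submodule ℂ (MvPolynomial (Fin 3) ℂ) :=
  homogeneousSubmodule (Fin 3) ℂ d ⊓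
    Submodule.restrictScalars ℂ
      (⨅ i : Fin n, (Ideal.span {X 0 - C (P i 0) * X 2, X 1 - C (P i 1) * X 2} :
        Ideal (MvPolynomial (Fin 3) ℂ)) ^ (w i))

/-- The (projective) dimension of the linear system of the curves of degree `d` with multiplicities at least `w i` at
`P i`. -/
noncomputable def dim {n : ℕ} (P : Fin n → Fin 2 → ℂ) (d : ℕ) (w : Fin n → ℕ) : ℤ :=
  (Module.finrank ℂ ↥(forms P d w) : ℤ) - 1

/-- The virtual dimension. -/
def vdim {n : ℕ} (d : ℕ) (w : Fin n → ℕ) : ℤ :=
  ((d + 2).choose 2 : ℤ) - 1 - ∑ i, ((w i + 1).choose 2 : ℤ)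

/-- The expected dimension. -/
def edim {n : ℕ} (d : ℕ) (w : Fin n → ℕ) : ℤ := max (vdim d w) (-1)

theorem result :
    -- 1. the expected dimension, one open set for all degrees
    (∀ (n : ℕ) (w : Fin n → ℕ), ∃ F : MvPolynomial (Fin n × Fin 2) ℂ, F ≠ 0 ∧
      ∀ P : Fin n → Fin 2 → ℂ, MvPolynomial.eval (fun ij : Fin n × Fin 2 => P ij.1 ij.2) F ≠ 0 →
        ∀ d : ℕ, System d (mults w) → dim P d w = edim d w) ∧
    -- 2. the two critical degrees suffice
    (∀ (v : Multiset ℕ) (d : ℕ), (d + 2).choose 2 ≤ conditions v → conditions v ≤ (d + 3).choose 2 →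
      System d v → System (d + 1) v → ∀ e : ℕ, System e v) ∧
    -- 3. at most nine groups of `4 ^ k` equal multiplicities, and multiplicities at most two
    (∀ (t d : ℕ) (x k : Fin t → ℕ) (E : Multiset ℕ), 4 ≤ t → t ≤ 9 → (∀ j, 1 ≤ x j) →
      (∀ j, 3 ≤ 2 ^ k j * (x j + 1)) → (∀ a ∈ E, a ≤ 2) →
      (∀ i j l : Fin t, i ≠ j → i ≠ l → j ≠ l →
        2 ^ k i * (x i + 1) + 2 ^ k j * (x j + 1) + 2 ^ k l * (x l + 1) ≤ d + 3) →
      System d (∑ j : Fin t, Multiset.replicate (4 ^ k j) (x j) + E)) := by
  refine ⟨fun n w => ?_, fun v d h1 h2 h3 h4 e => ?_, fun t d x k E ht ht9 hx h3 hE hd =>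
    Pool.Agent.Q54.SC.groups ht ht9 x k hx h3 E hE hd⟩
  · obtain ⟨F, hF, hF'⟩ := Pool.Agent.Q54.SC.all_degrees w
    refine ⟨F.map (algebraMap ℚ ℂ), H932R3.map_ne_zero_of hF, fun P hP d hd => ?_⟩
    rw [MvPolynomial.eval_map] at hP
    have h2 := hF' P hP d hd
    unfold H932R3.ExpDim at h2
    have h3 : ∑ i : Fin n, ((w i + 1).choose 2 : ℤ) = ((∑ i : Fin n, Nat.choose (w i + 1) 2 : ℕ) : ℤ) := by
      push_cast
      rfl
    unfold dim edim vdim forms
    rw [h3, h2]
    omega
  · rcases Nat.lt_or_ge d e with h | h
    · exact System.higher (d' := d + 1) (by omega) h2 h4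
    · exact System.lower h h1 h3

end Pool.Agent.Results.MP_6e81d8_ag.SubdivisionClosure
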